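import Mathlib

set_option autoImplicit false

namespace Pool.Agent.Results.MP_fecc7a_nt.FiniteReach

open Filter Topology

/-- The map `n ↦ φ(n) + 1`. -/
def f (n : ℕ) : ℕ := Nat.totient n + 1

/-- `R p`: the positive integers whose orbit under `n ↦ φ(n) + 1` reaches `p`. -/
def R (p : ℕ) : Set ℕ := {n | 1 ≤ n ∧ ∃ i : ℕ, f^[i] n = p}

/-- `p` is exceptional if `p - 1 = φ(q ^ a)` for a prime power `q ^ a` with exponent `a ≥ 2`. -/
def Exceptional (p : ℕ) : Prop :=
  ∃ q a : ℕ, q.Prime ∧ 2 ≤ a ∧ q ^ (a - 1) * (q - 1) = p - 1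

lemma totient_odd {n : ℕ} (h : Odd (Nat.totient n)) : n = 1 ∨ n = 2 := by
  have h1 : n ≤ 2 := by
    by_contra hn
    have := Nat.totient_even (by omega : 2 < n)
    exact (Nat.not_even_iff_odd.2 h) this
  interval_cases n
  · simp at h
  · left; rfl
  · right; rfl

/-- Classification of `n` with `φ(n) ≡ 2 mod 4`. -/
lemma totient_two_mod_four {n : ℕ} (hn : 0 < n) (h : Nat.totient n % 4 = 2) :
    n = 4 ∨ ∃ q a : ℕ, q.Prime ∧ 1 ≤ a ∧ (n = q ^ a ∨ n = 2 * q ^ a) ∧
      Nat.totient n = q ^ (a - 1) * (q - 1) ∧ q ≠ 2 := by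
  by_cases hq : ∃ q, q.Prime ∧ q ∣ n ∧ q ≠ 2
  · right
    obtain ⟨q, hq, hqn, hq2⟩ := hq
    obtain ⟨a, m, hm, rfl⟩ := Nat.exists_eq_pow_mul_and_not_dvd hn.ne' q hq.ne_one
    have ha : 1 ≤ a := by
      rcases Nat.eq_zero_or_pos a with h0 | h0
      · subst h0; simp at hqn; exact absurd hqn hm
      · exact h0
    have hcop : Nat.Coprime (q ^ a) m := Nat.Coprime.pow_left _ ((Nat.Prime.coprime_iff_not_dvd hq).2 hm)
    have htot : Nat.totient (q ^ a * m) = q ^ (a - 1) * (q - 1) * Nat.totient m := by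
      rw [Nat.totient_mul hcop, Nat.totient_prime_pow hq ha]
    have hqodd : q % 2 = 1 := (Nat.Prime.eq_two_or_odd hq).resolve_left hq2
    have hmodd : Odd (Nat.totient m) := by
      by_contra hcon
      rw [Nat.not_odd_iff_even] at hcon
      obtain ⟨c, hc⟩ := hcon
      rw [htot, hc] at h
      obtain ⟨b, hb⟩ : ∃ b, q - 1 = 2 * b := ⟨(q - 1) / 2, by omega⟩
      rw [hb] at h
      have : q ^ (a - 1) * (2 * b) * (c + c) = 4 * (q ^ (a - 1) * b * c) := by ring
      omega
    rcases totient_odd hmodd with rfl | rfl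
    · exact ⟨q, a, hq, ha, Or.inl (by simp), by rw [htot]; simp, hq2⟩
    · exact ⟨q, a, hq, ha, Or.inr (by ring), by rw [htot]; simp, hq2⟩
  · left
    push Not at hq
    have h2 : ∃ j, n = 2 ^ j := by
      refine ⟨n.primeFactorsList.length, ?_⟩
      exact Nat.eq_prime_pow_of_unique_prime_dvd hn.ne' (fun {d} hd hdn => hq d hd hdn)
    obtain ⟨j, rfl⟩ := h2
    rcases j with _ | _ | _ | j
    · simp at h
    · simp at h
    · rfl
    · rw [Nat.totient_prime_pow Nat.prime_two (by omega)] at h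
      simp only [Nat.add_sub_cancel] at h
      have : 2 ^ (j + 1 + 1) * (2 - 1) = 4 * 2 ^ j := by ring
      omega

lemma f_eq_two_mul {p n : ℕ} (hp : 2 ≤ p) (h : f n = 2 * p) : False := by
  unfold f at h
  have : Odd (Nat.totient n) := by
    rw [Nat.odd_iff]; omega
  rcases totient_odd this with rfl | rfl
  · simp at h; omega
  · simp at h; omega

lemma f_eq {p n : ℕ} (hp : p.Prime) (h4 : p % 4 = 3) (h3 : p ≠ 3) (hE : ¬ Exceptional p)
    (hn : 0 < n) (h : f n = p) : n = p ∨ n = 2 * p := by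
  unfold f at h
  have hp2 := hp.two_le
  rcases totient_two_mod_four hn (by omega) with rfl | ⟨q, a, hq, ha, hnq, htot, hq2⟩
  · have : Nat.totient 4 = 2 := by decide
    omega
  · have ha1 : a = 1 := by
      by_contra hne
      exact hE ⟨q, a, hq, by omega, by rw [← htot]; omega⟩
    subst ha1
    have hqp : q = p := by
      simp at htot
      have := hq.two_le
      omega
    subst hqp
    simpa using hnq

lemma R_eq {p : ℕ} (hp : p.Prime) (h4 : p % 4 = 3) (h3 : p ≠ 3) (hE : ¬ Exceptional p) :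
    R p = {p, 2 * p} := by
  have hp2 := hp.two_le
  ext n
  simp only [R, Set.mem_ofPred_eq, Set.mem_insert_iff, Set.mem_singleton_iff]
  constructor
  · rintro ⟨hn, i, hi⟩
    induction i generalizing n with
    | zero => left; simpa using hi
    | succ i ih =>
      rw [Function.iterate_succ_apply] at hi
      rcases ih (f n) (by unfold f; omega) hi with h | h
      · exact f_eq hp h4 h3 hE (by omega) h
      · exact (f_eq_two_mul hp2 h).elim
  · rintro (rfl | rfl)
    · exact ⟨by omega, 0, rfl⟩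
    · refine ⟨by omega, 1, ?_⟩
      simp only [Function.iterate_one, f]
      rw [Nat.totient_two_mul_of_odd (Nat.odd_iff.2 (by omega)), Nat.totient_prime hp]
      omega

lemma R_exceptional {p : ℕ} (hp : p.Prime) (hE : Exceptional p) : R p ≠ {p, 2 * p} := by
  obtain ⟨q, a, hq, ha, h⟩ := hE
  intro hR
  have hp2 := hp.two_le
  have hmem : q ^ a ∈ R p := by
    refine ⟨Nat.one_le_pow _ _ hq.pos, 1, ?_⟩
    simp only [Function.iterate_one, f]
    rw [Nat.totient_prime_pow hq (by omega), h]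
    omega
  rw [hR] at hmem
  rcases hmem with h1 | h1
  · rw [← h1] at hp
    exact (Nat.Prime.not_prime_pow ha) hp
  · have h1 : q ^ a = 2 * p := h1
    have hd : (2 : ℕ) ∣ q ^ a := ⟨p, h1⟩
    have hq2 : q = 2 := ((Nat.prime_dvd_prime_iff_eq Nat.prime_two hq).1
      (Nat.prime_two.dvd_of_dvd_pow hd)).symm
    subst hq2
    have h5 : p = 2 ^ (a - 1) := by
      have : 2 ^ a = 2 * 2 ^ (a - 1) := by
        rw [← pow_succ']; congr 1; omega
      omega
    rw [h5] at h
    have : 1 ≤ 2 ^ (a - 1) := Nat.one_le_pow _ _ (by norm_num)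
    simp at h
    omega

/-! ### The primes covered are numerous -/

lemma exc_bound {n q b : ℕ} (hq : 2 ≤ q) (h : q ^ (b + 1) * (q - 1) + 1 = n) :
    Real.log n / n ≤ 8 * ((((q : ℝ) ^ (3 / 2 : ℝ))⁻¹) * ((2 : ℝ) ^ (-(3 / 4) : ℝ)) ^ b) := by
  have hq0 : (0 : ℝ) < q := by exact_mod_cast (by omega : 0 < q)
  have hq2 : (2 : ℝ) ≤ q := by exact_mod_cast hq
  have hn : ((q : ℝ) ^ (b + 2)) / 2 ≤ n := by
    rw [← h]
    push_cast
    rw [Nat.cast_sub (by omega), Nat.cast_one]
    have h1 : (0 : ℝ) < (q : ℝ) ^ (b + 1) := by positivity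
    have h2 : (q : ℝ) ^ (b + 2) = (q : ℝ) ^ (b + 1) * q := pow_succ _ _
    rw [h2]
    nlinarith
  have hpos : (0 : ℝ) < (q : ℝ) ^ (b + 2) / 2 := by positivity
  have hn0 : (0 : ℝ) < n := lt_of_lt_of_le hpos hn
  have h1 : Real.log n ≤ (n : ℝ) ^ (1 / 4 : ℝ) / (1 / 4) :=
    Real.log_le_rpow_div hn0.le (by norm_num)
  have h2 : Real.log n / n ≤ 4 * (n : ℝ) ^ (-(3 / 4) : ℝ) := by
    rw [div_le_iff₀ hn0]
    have : 4 * (n : ℝ) ^ (-(3 / 4) : ℝ) * n = (n : ℝ) ^ (1 / 4 : ℝ) / (1 / 4) := by
      have h3 : (n : ℝ) ^ (1 / 4 : ℝ) = (n : ℝ) ^ (-(3 / 4) : ℝ) * (n : ℝ) ^ (1 : ℝ) := by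
        rw [← Real.rpow_add hn0]; norm_num
      rw [h3, Real.rpow_one]; ring
    rw [this]; exact h1
  have h3 : (n : ℝ) ^ (-(3 / 4) : ℝ) ≤ ((q : ℝ) ^ (b + 2) / 2) ^ (-(3 / 4) : ℝ) :=
    Real.rpow_le_rpow_of_nonpos hpos hn (by norm_num)
  have h4 : ((q : ℝ) ^ (b + 2) / 2) ^ (-(3 / 4) : ℝ) =
      (2 : ℝ) ^ (3 / 4 : ℝ) * ((((q : ℝ) ^ (3 / 2 : ℝ))⁻¹) * ((q : ℝ) ^ (-(3 / 4) : ℝ)) ^ b) := by
    rw [Real.div_rpow (by positivity) (by norm_num), pow_add, Real.mul_rpow (by positivity)
      (by positivity), Real.rpow_neg (by norm_num : (0 : ℝ) ≤ 2), div_inv_eq_mul]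
    have e1 : ((q : ℝ) ^ b) ^ (-(3 / 4) : ℝ) = ((q : ℝ) ^ (-(3 / 4) : ℝ)) ^ b := by
      rw [← Real.rpow_natCast, ← Real.rpow_mul hq0.le, ← Real.rpow_natCast,
        ← Real.rpow_mul hq0.le]
      congr 1; ring
    have e2 : ((q : ℝ) ^ 2) ^ (-(3 / 4) : ℝ) = ((q : ℝ) ^ (3 / 2 : ℝ))⁻¹ := by
      rw [← Real.rpow_natCast, ← Real.rpow_mul hq0.le, ← Real.rpow_neg hq0.le]
      congr 1; norm_num
    rw [e1, e2]; ring
  have h5 : (2 : ℝ) ^ (3 / 4 : ℝ) ≤ 2 := by
    calc (2 : ℝ) ^ (3 / 4 : ℝ) ≤ (2 : ℝ) ^ (1 : ℝ) :=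
          Real.rpow_le_rpow_of_exponent_le (by norm_num) (by norm_num)
      _ = 2 := Real.rpow_one 2
  have h6 : ((q : ℝ) ^ (-(3 / 4) : ℝ)) ^ b ≤ ((2 : ℝ) ^ (-(3 / 4) : ℝ)) ^ b := by
    apply pow_le_pow_left₀ (by positivity)
    exact Real.rpow_le_rpow_of_nonpos (by norm_num) hq2 (by norm_num)
  have h7 : (0 : ℝ) ≤ ((q : ℝ) ^ (3 / 2 : ℝ))⁻¹ := by positivity
  calc Real.log n / n ≤ 4 * (n : ℝ) ^ (-(3 / 4) : ℝ) := h2
    _ ≤ 4 * ((2 : ℝ) ^ (3 / 4 : ℝ) *
        ((((q : ℝ) ^ (3 / 2 : ℝ))⁻¹) * ((q : ℝ) ^ (-(3 / 4) : ℝ)) ^ b)) := by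
        rw [← h4]; linarith
    _ ≤ 4 * (2 * ((((q : ℝ) ^ (3 / 2 : ℝ))⁻¹) * ((2 : ℝ) ^ (-(3 / 4) : ℝ)) ^ b)) := by
        apply mul_le_mul_of_nonneg_left _ (by norm_num)
        apply mul_le_mul h5 _ (by positivity) (by norm_num)
        exact mul_le_mul_of_nonneg_left h6 h7
    _ = _ := by ring

lemma pairs_summable : Summable (fun x : ℕ × ℕ =>
    (((x.1 : ℝ) ^ (3 / 2 : ℝ))⁻¹) * ((2 : ℝ) ^ (-(3 / 4) : ℝ)) ^ x.2) := by
  apply Summable.mul_of_nonneg (f := fun n : ℕ => (((n : ℝ) ^ (3 / 2 : ℝ))⁻¹))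
    (g := fun b : ℕ => ((2 : ℝ) ^ (-(3 / 4) : ℝ)) ^ b)
  · exact Real.summable_nat_rpow_inv.2 (by norm_num)
  · apply summable_geometric_of_lt_one (by positivity)
    exact Real.rpow_lt_one_of_one_lt_of_neg (by norm_num) (by norm_num)
  · intro n; positivity
  · intro n; positivity

lemma exc_summable : Summable (fun n : {n : ℕ // n.Prime ∧ Exceptional n} =>
    Real.log (n : ℕ) / ((n : ℕ) : ℝ)) := by
  choose q a hq ha h using fun n : {n : ℕ // n.Prime ∧ Exceptional n} => n.2.2
  have hval : ∀ n : {n : ℕ // n.Prime ∧ Exceptional n},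
      q n ^ ((a n - 2) + 1) * (q n - 1) + 1 = (n : ℕ) := by
    intro n
    have h1 : (a n - 2) + 1 = a n - 1 := by have := ha n; omega
    rw [h1, h n]
    have := n.2.1.two_le
    omega
  have hinj : Function.Injective
      (fun n : {n : ℕ // n.Prime ∧ Exceptional n} => ((q n, a n - 2) : ℕ × ℕ)) := by
    intro n m hnm
    simp only [Prod.mk.injEq] at hnm
    apply Subtype.ext
    rw [← hval n, ← hval m, hnm.1, hnm.2]
  refine Summable.of_nonneg_of_le (fun n => ?_) (fun n => exc_bound (hq n).two_le (hval n))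
    ((pairs_summable.comp_injective hinj).mul_left 8)
  apply div_nonneg (Real.log_natCast_nonneg _) (by positivity)

open Classical in
lemma not_summable : ¬ Summable (fun n : ℕ =>
    if n.Prime ∧ n % 4 = 3 ∧ R n = {n, 2 * n} then Real.log n / n else 0) := by
  intro H
  have hu : IsUnit (3 : ZMod 4) := by decide
  apply ArithmeticFunction.vonMangoldt.not_summable_residueClass_prime_div hu
  have h2 : Summable (fun n : ℕ => if n.Prime ∧ Exceptional n then Real.log n / n else 0) := by
    have := (summable_subtype_iff_indicator (f := fun n : ℕ => Real.log n / (n : ℝ))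
      (s := {n : ℕ | n.Prime ∧ Exceptional n})).1 exc_summable
    refine this.congr (fun n => ?_)
    simp [Set.indicator_apply]
  have h3 : Summable (fun n : ℕ => if n = 3 then Real.log n / n else 0) := by
    refine (hasSum_ite_eq (3 : ℕ) (Real.log (3 : ℕ) / ((3 : ℕ) : ℝ))).summable.congr (fun n => ?_)
    by_cases hn : n = 3
    · subst hn; simp
    · simp [hn]
  refine Summable.of_nonneg_of_le (fun n => ?_) (fun n => ?_) ((H.add h2).add h3)
  · apply div_nonneg _ (by positivity)
    split_ifs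
    · exact ArithmeticFunction.vonMangoldt.residueClass_nonneg _ _
    · exact le_rfl
  · have hnn : (0 : ℝ) ≤ Real.log n / n := div_nonneg (Real.log_natCast_nonneg _) (by positivity)
    by_cases hp : n.Prime
    · rw [if_pos hp]
      by_cases h4 : (n : ZMod 4) = 3
      · have h4' : n % 4 = 3 := by
          have : (n : ZMod 4) = ((3 : ℕ) : ZMod 4) := by rw [h4]; rfl
          rw [ZMod.natCast_eq_natCast_iff'] at this
          exact this
        have hres : ArithmeticFunction.vonMangoldt.residueClass (3 : ZMod 4) n = Real.log n := by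
          unfold ArithmeticFunction.vonMangoldt.residueClass
          rw [Set.indicator_of_mem (by simpa using h4),
            ArithmeticFunction.vonMangoldt_apply_prime hp]
        rw [hres]
        by_cases hE : Exceptional n
        · rw [if_pos (⟨hp, hE⟩ : n.Prime ∧ Exceptional n)]
          have a1 : (0 : ℝ) ≤ if n.Prime ∧ n % 4 = 3 ∧ R n = {n, 2 * n} then Real.log n / n
            else 0 := by split_ifs <;> simp [hnn]
          have a2 : (0 : ℝ) ≤ if n = 3 then Real.log n / n else 0 := by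
            split_ifs <;> simp [hnn]
          linarith
        · by_cases h3' : n = 3
          · rw [if_pos h3']
            have a1 : (0 : ℝ) ≤ if n.Prime ∧ n % 4 = 3 ∧ R n = {n, 2 * n} then Real.log n / n
              else 0 := by split_ifs <;> simp [hnn]
            have a2 : (0 : ℝ) ≤ if n.Prime ∧ Exceptional n then Real.log n / n else 0 := by
              split_ifs <;> simp [hnn]
            linarith
          · rw [if_pos ⟨hp, h4', R_eq hp h4' h3' hE⟩]
            have a2 : (0 : ℝ) ≤ if n.Prime ∧ Exceptional n then Real.log n / n else 0 := by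
              split_ifs <;> simp [hnn]
            have a3 : (0 : ℝ) ≤ if n = 3 then Real.log n / n else 0 := by
              split_ifs <;> simp [hnn]
            linarith
      · have hres : ArithmeticFunction.vonMangoldt.residueClass (3 : ZMod 4) n = 0 := by
          unfold ArithmeticFunction.vonMangoldt.residueClass
          rw [Set.indicator_of_notMem (by simpa using h4)]
        rw [hres, zero_div]
        have a1 : (0 : ℝ) ≤ if n.Prime ∧ n % 4 = 3 ∧ R n = {n, 2 * n} then Real.log n / n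
          else 0 := by split_ifs <;> simp [hnn]
        have a2 : (0 : ℝ) ≤ if n.Prime ∧ Exceptional n then Real.log n / n else 0 := by
          split_ifs <;> simp [hnn]
        have a3 : (0 : ℝ) ≤ if n = 3 then Real.log n / n else 0 := by
          split_ifs <;> simp [hnn]
        linarith
    · rw [if_neg hp, zero_div]
      have a1 : (0 : ℝ) ≤ if n.Prime ∧ n % 4 = 3 ∧ R n = {n, 2 * n} then Real.log n / n
        else 0 := by split_ifs <;> simp [hnn]
      have a2 : (0 : ℝ) ≤ if n.Prime ∧ Exceptional n then Real.log n / n else 0 := by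
        split_ifs <;> simp [hnn]
      have a3 : (0 : ℝ) ≤ if n = 3 then Real.log n / n else 0 := by
        split_ifs <;> simp [hnn]
      linarith

/-! ### A general finiteness criterion -/

/-- The fibres of Euler's totient function are finite. -/
lemma fibre_finite (m : ℕ) : {n : ℕ | 1 ≤ n ∧ Nat.totient n = m}.Finite := by
  apply (((m + 1).factorial ^ (m + 1)).divisors.finite_toSet).subset
  rintro n ⟨hn, hm⟩
  rw [Finset.mem_coe, Nat.mem_divisors]
  refine ⟨?_, by positivity⟩
  rw [Nat.dvd_iff_prime_pow_dvd_dvd]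
  intro q k hq hqk
  rcases Nat.eq_zero_or_pos k with hk | hk
  · subst hk; simp
  have hmpos : 0 < m := by rw [← hm]; exact Nat.totient_pos.2 hn
  have h1 : q ^ (k - 1) * (q - 1) ∣ m := by
    rw [← hm, ← Nat.totient_prime_pow hq hk]
    exact Nat.totient_dvd_of_dvd hqk
  have h2 : q - 1 ≤ m := Nat.le_of_dvd hmpos (dvd_trans (Dvd.intro_left _ rfl) h1)
  have h3 : q ^ (k - 1) ≤ m := Nat.le_of_dvd hmpos (dvd_trans (Dvd.intro _ rfl) h1)
  have h4 : k - 1 < m := by
    calc k - 1 < 2 ^ (k - 1) := Nat.lt_two_pow_self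
      _ ≤ q ^ (k - 1) := Nat.pow_le_pow_left hq.two_le _
      _ ≤ m := h3
  have h5 : q ∣ (m + 1).factorial := Nat.dvd_factorial hq.pos (by omega)
  exact (pow_dvd_pow q (by omega : k ≤ m + 1)).trans (pow_dvd_pow_of_dvd h5 _)

lemma R_eq_fibre {p : ℕ} (hp : p.Prime)
    (h : ∀ m : ℕ, Odd m → 1 < m → ¬ m.Prime → Nat.totient m ≠ p - 1) :
    R p = {n : ℕ | 1 ≤ n ∧ Nat.totient n = p - 1} := by
  have hp2 := hp.two_le
  have key : ∀ i n : ℕ, 1 ≤ n → f^[i] n = p → Nat.totient n = p - 1 := by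
    intro i
    induction i with
    | zero =>
      intro n _ hn
      have : n = p := hn
      rw [this, Nat.totient_prime hp]
    | succ i ih =>
      intro n hn1 hn
      rw [Function.iterate_succ_apply] at hn
      have h1 := ih (f n) (by unfold f; omega) hn
      have h2 : (f n).Prime := by
        by_contra hnp
        rcases Nat.even_or_odd (f n) with he | ho
        · have h3 : Odd (Nat.totient n) := by
            unfold f at he
            rw [Nat.odd_iff]
            rw [Nat.even_iff] at he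
            omega
          apply hnp
          rcases totient_odd h3 with rfl | rfl
          · have : f 1 = 2 := by simp [f]
            rw [this]; exact Nat.prime_two
          · have : f 2 = 2 := by simp [f]
            rw [this]; exact Nat.prime_two
        · have h3 : 1 < f n := by
            unfold f
            have := Nat.totient_pos.2 (show 0 < n by omega)
            omega
          exact h (f n) ho h3 hnp h1
      rw [Nat.totient_prime h2] at h1
      have h3 := h2.two_le
      unfold f at h1 h3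
      omega
  ext n
  constructor
  · rintro ⟨h1, i, hi⟩
    exact ⟨h1, key i n h1 hi⟩
  · rintro ⟨h1, h2⟩
    refine ⟨h1, 1, ?_⟩
    simp only [Function.iterate_one, f]
    omega

open Classical in
/-- Finiteness of `R p` for many primes `p`. -/
theorem result :
    -- a finiteness criterion for an arbitrary prime
    (∀ p : ℕ, p.Prime → (∀ m : ℕ, Odd m → 1 < m → ¬ m.Prime → Nat.totient m ≠ p - 1) →
      R p = {n : ℕ | 1 ≤ n ∧ Nat.totient n = p - 1} ∧ (R p).Finite) ∧
    -- primes congruent to 3 modulo 4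
    (∀ p : ℕ, p.Prime → p % 4 = 3 → p ≠ 3 → (R p = {p, 2 * p} ↔ ¬ Exceptional p)) ∧
    -- the exceptional primes are rare, the primes with `R p = {p, 2p}` are not
    Summable (fun p : ℕ => if p.Prime ∧ Exceptional p then Real.log p / p else 0) ∧
    ¬ Summable (fun p : ℕ =>
      if p.Prime ∧ p % 4 = 3 ∧ R p = {p, 2 * p} then Real.log p / p else 0) ∧
    -- in particular a prime `p > 3` with `p = 3 mod 4` and `R p` infinite is exceptional
    (∀ p : ℕ, p.Prime → p % 4 = 3 → (R p).Infinite → Exceptional p) := by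
  refine ⟨?_, ?_, ?_, not_summable, ?_⟩
  · intro p hp h
    have h1 := R_eq_fibre hp h
    exact ⟨h1, by rw [h1]; exact fibre_finite _⟩
  · intro p hp h4 h3
    exact ⟨fun hR hE => R_exceptional hp hE hR, fun hE => R_eq hp h4 h3 hE⟩
  · have := (summable_subtype_iff_indicator (f := fun n : ℕ => Real.log n / (n : ℝ))
      (s := {n : ℕ | n.Prime ∧ Exceptional n})).1 exc_summable
    refine this.congr (fun n => ?_)
    simp [Set.indicator_apply]
  · intro p hp h4 hinf
    by_contra hE
    have h3 : p ≠ 3 := by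
      rintro rfl
      exact hE ⟨2, 2, Nat.prime_two, le_rfl, by norm_num⟩
    apply hinf
    rw [R_eq hp h4 h3 hE]
    exact Set.toFinite _

end Pool.Agent.Results.MP_fecc7a_nt.FiniteReach
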